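import Pool.Agent.Helper97.CG.Stmts

/-!
# Row II of MP_005e41: the chart for every isometry of finite order
-/

namespace Pool.Agent.Helper97.CG

set_option linter.unusedSectionVars false

open Matrix Pool.Agent.Helper14.RG

universe u

section Aux

variable {k : Type u} [Field k] {n m : Type} [Fintype n] [DecidableEq n] [Fintype m]
  [DecidableEq m]

lemma dg_diagonal {e w : Type} [Fintype e] [DecidableEq e] [Fintype w] [DecidableEq w]
    (a b : e → k) (c : w → k) :
    dg (diagonal a) (diagonal b) (diagonal c) = diagonal (Sum.elim a (Sum.elim b c)) := by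
  ext i j
  rcases i with i | i | i <;> rcases j with j | j | j <;>
    simp [dg, mk3, Matrix.diagonal_apply]

/-- transport of an element of the isometry group -/
lemma iso_push {J : Matrix n n k} {u : Matrix n m k} {v : Matrix m n k} (h1 : u * v = 1)
    (h2 : v * u = 1) (x : IsoG J) : ∃ y : IsoG (uᵀ * J * u), isoHom _ y = v * isoHom J x * u := by
  have hx : (isoHom J x)ᵀ * J * isoHom J x = J := x.2
  have hd : (isoHom J x).det = 1 := x.1.2
  have hd' : (v * isoHom J x * u).det = 1 := by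
    rw [Matrix.det_conj_of_mul_eq_one h2 h1, hd]
  have e1 : (v * isoHom J x * u)ᵀ * (uᵀ * J * u) * (v * isoHom J x * u) = uᵀ * J * u := by
    have e2 : (v * isoHom J x * u)ᵀ = uᵀ * (isoHom J x)ᵀ * vᵀ := by
      rw [transpose_mul, transpose_mul, Matrix.mul_assoc]
    have e3 : vᵀ * uᵀ = 1 := by rw [← transpose_mul, h1, transpose_one]
    rw [e2]
    calc uᵀ * (isoHom J x)ᵀ * vᵀ * (uᵀ * J * u) * (v * isoHom J x * u)
        = uᵀ * (isoHom J x)ᵀ * (vᵀ * uᵀ) * J * (u * v) * isoHom J x * u := by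
          simp only [Matrix.mul_assoc]
      _ = uᵀ * ((isoHom J x)ᵀ * J * isoHom J x) * u := by
          rw [e3, h1, Matrix.mul_one, Matrix.mul_one]
          simp only [Matrix.mul_assoc]
      _ = uᵀ * J * u := by rw [hx]
  exact ⟨⟨⟨_, hd'⟩, e1⟩, rfl⟩

lemma iso_pull {J : Matrix n n k} {u : Matrix n m k} {v : Matrix m n k} (h1 : u * v = 1)
    (h2 : v * u = 1) (x : IsoG (uᵀ * J * u)) :
    ∃ y : IsoG J, isoHom _ y = u * isoHom (uᵀ * J * u) x * v := by
  have hx : (isoHom (uᵀ * J * u) x)ᵀ * (uᵀ * J * u) * isoHom (uᵀ * J * u) x = uᵀ * J * u := x.2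
  have hd : (isoHom (uᵀ * J * u) x).det = 1 := x.1.2
  generalize isoHom (uᵀ * J * u) x = X at hx hd
  have hd' : (u * X * v).det = 1 := by
    rw [Matrix.det_conj_of_mul_eq_one h1 h2, hd]
  have e1 : (u * X * v)ᵀ * J * (u * X * v) = J := by
    have e2 : (u * X * v)ᵀ = vᵀ * Xᵀ * uᵀ := by
      rw [transpose_mul, transpose_mul, Matrix.mul_assoc]
    have e3 : vᵀ * uᵀ = 1 := by rw [← transpose_mul, h1, transpose_one]
    rw [e2]
    calc vᵀ * Xᵀ * uᵀ * J * (u * X * v)
        = vᵀ * (Xᵀ * (uᵀ * J * u) * X) * v := by simp only [Matrix.mul_assoc]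
      _ = (vᵀ * uᵀ) * J * (u * v) := by rw [hx]; simp only [Matrix.mul_assoc]
      _ = J := by rw [e3, h1, Matrix.one_mul, Matrix.mul_one]
  exact ⟨⟨⟨_, hd'⟩, e1⟩, rfl⟩

/-- relation `E` on eigenvalues compatible with the splitting `P` -/
structure Spl (E : k → k → Prop) (P : k → Prop) : Prop where
  symm : ∀ a b, E a b → E b a
  pres : ∀ a b, E a b → P a → P b
  inv : ∀ a b, E a b → E a⁻¹ b⁻¹
  asym : ∀ l, P l → ¬ P l⁻¹

/-- the eigenvalues of the standard form -/
def Lam {e w : ℕ} (χ : Fin e → k) (χw : Fin w → k) : Fin e ⊕ (Fin e ⊕ Fin w) → k :=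
  Sum.elim χ (Sum.elim (fun i => (χ i)⁻¹) χw)

lemma blk {e w : ℕ} {E : k → k → Prop} {P : k → Prop} (h : Spl E P) {χ : Fin e → k}
    {χw : Fin w → k} (hP : ∀ i, P (χ i)) (hPw : ∀ j, ¬ P (χw j) ∧ ¬ P (χw j)⁻¹)
    (x : Matrix (Fin e ⊕ (Fin e ⊕ Fin w)) (Fin e ⊕ (Fin e ⊕ Fin w)) k)
    (hx : ∀ i j, x i j ≠ 0 → E (Lam χ χw i) (Lam χ χw j)) :
    b12 x = 0 ∧ b13 x = 0 ∧ b21 x = 0 ∧ b23 x = 0 ∧ b31 x = 0 ∧ b32 x = 0 := by
  refine ⟨?_, ?_, ?_, ?_, ?_, ?_⟩
  · ext i j
    show x (Sum.inl i) (Sum.inr (Sum.inl j)) = 0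
    by_contra hne
    have h1 : E (χ i) (χ j)⁻¹ := hx _ _ hne
    exact h.asym _ (hP j) (h.pres _ _ h1 (hP i))
  · ext i j
    show x (Sum.inl i) (Sum.inr (Sum.inr j)) = 0
    by_contra hne
    have h1 : E (χ i) (χw j) := hx _ _ hne
    exact (hPw j).1 (h.pres _ _ h1 (hP i))
  · ext i j
    show x (Sum.inr (Sum.inl i)) (Sum.inl j) = 0
    by_contra hne
    have h1 : E (χ i)⁻¹ (χ j) := hx _ _ hne
    exact h.asym _ (hP i) (h.pres _ _ (h.symm _ _ h1) (hP j))
  · ext i j
    show x (Sum.inr (Sum.inl i)) (Sum.inr (Sum.inr j)) = 0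
    by_contra hne
    have h1 : E (χ i)⁻¹ (χw j) := hx _ _ hne
    have h2 := h.inv _ _ h1
    rw [inv_inv] at h2
    exact (hPw j).2 (h.pres _ _ h2 (hP i))
  · ext i j
    show x (Sum.inr (Sum.inr i)) (Sum.inl j) = 0
    by_contra hne
    have h1 : E (χw i) (χ j) := hx _ _ hne
    exact (hPw i).1 (h.pres _ _ (h.symm _ _ h1) (hP j))
  · ext i j
    show x (Sum.inr (Sum.inr i)) (Sum.inr (Sum.inl j)) = 0
    by_contra hne
    have h1 : E (χw i) (χ j)⁻¹ := hx _ _ hne
    have h2 := h.inv _ _ h1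
    rw [inv_inv] at h2
    exact (hPw i).2 (h.pres _ _ (h.symm _ _ h2) (hP j))

/-- the third block of a block diagonal element of the group -/
lemma third {e w : ℕ} {ε : k} {Jw : Matrix (Fin w) (Fin w) k}
    (x : IsoG (LJ (Fin e) ε Jw))
    (h : b12 (isoHom _ x) = 0 ∧ b13 (isoHom _ x) = 0 ∧ b21 (isoHom _ x) = 0 ∧
      b23 (isoHom _ x) = 0 ∧ b31 (isoHom _ x) = 0 ∧ b32 (isoHom _ x) = 0) :
    ∃ y : IsoG Jw, isoHom _ y = b33 (isoHom _ x) := by
  have hx : (isoHom _ x)ᵀ * (LJ (Fin e) ε Jw) * isoHom _ x = LJ (Fin e) ε Jw := x.2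
  have hd : (isoHom _ x).det = 1 := x.1.2
  generalize isoHom (LJ (Fin e) ε Jw) x = X at hx hd h ⊢
  obtain ⟨h12, h13, h21, h23, h31, h32⟩ := h
  have hX : X = dg (b11 X) (b22 X) (b33 X) := by
    conv_lhs => rw [← mk3_eta X, h12, h13, h21, h23, h31, h32]
    rfl
  rw [hX] at hx hd
  rw [dg, LJ, mk3_transpose, mk3_mul, mk3_mul] at hx
  simp only [transpose_zero, Matrix.zero_mul, Matrix.mul_zero, add_zero, zero_add,
    Matrix.mul_one, Matrix.mul_smul, Matrix.smul_mul] at hx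
  have hh := mk3_inj hx
  have e1 : (b11 X)ᵀ * b22 X = 1 := hh.1.2.1
  have e2 : (b33 X)ᵀ * Jw * b33 X = Jw := hh.2.2.2.2
  rw [det_dg] at hd
  have e3 : (b11 X).det * (b22 X).det = 1 := by
    have := congrArg Matrix.det e1
    rwa [det_mul, det_transpose, det_one] at this
  have e4 : (b33 X).det = 1 := by
    rw [← mul_assoc, e3, one_mul] at hd
    exact hd
  exact ⟨⟨⟨_, e4⟩, e2⟩, rfl⟩

lemma diag_scal (Λ : n → k) (X : Matrix n n k) {c : k} (h : diagonal Λ * X = c • (X * diagonal Λ))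
    (i j : n) : Λ i * X i j = c * (X i j * Λ j) := by
  have := congrFun (congrFun h i) j
  rwa [Matrix.diagonal_mul, Matrix.smul_apply, Matrix.mul_diagonal, smul_eq_mul] at this

end Aux

variable {k : Type u} [Field k] [IsAlgClosed k] [CharZero k]

theorem ii_core (hTRN : ST_TRN k) (hLEV : ST_LEV k) (hPRD : ST_PRD k) (hGLC : ST_GLC k)
    (hNF2 : ST_NF2 k) (hW4 : ST_W4 k) (hW1N : ST_W1N k) {e w : ℕ} {ε : k}
    {Jw : Matrix (Fin w) (Fin w) k} (hJw : IsForm ε Jw) {χ : Fin e → k} {χw : Fin w → k}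
    (hχ0 : ∀ i, χ i ≠ 0) (hχw : (diagonal χw)ᵀ * Jw * diagonal χw = Jw)
    {E : k → k → Prop} {P : k → Prop} (hS : Spl E P) (hP : ∀ i, P (χ i))
    (hPw : ∀ j, ¬ P (χw j) ∧ ¬ P (χw j)⁻¹)
    (hE : ∀ x ∈ cmm (isoHom (LJ (Fin e) ε Jw))
      (dg (diagonal χ) (diagonal fun i => (χ i)⁻¹) (diagonal χw)),
      ∀ i j, isoHom _ x i j ≠ 0 → E (Lam χ χw i) (Lam χ χw j))
    {I : k} (hI : I * I = -1) (h4 : ∀ j, χw j = 1 ∨ χw j = -1 ∨ χw j = I ∨ χw j = -I)
    (hB : (∃ h : IsoG Jw, diagonal χw * isoHom Jw h = -(isoHom Jw h * diagonal χw)) ∨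
      (∀ j, χw j = 1 ∨ χw j = -1)) :
    HC (isoHom (LJ (Fin e) ε Jw)) (dg (diagonal χ) (diagonal fun i => (χ i)⁻¹)
      (diagonal χw)) := by
  obtain ⟨d, hd⟩ : ∃ d, IsSg ε d := by
    rcases hJw.eps with h | h
    · exact ⟨false, Or.inr ⟨rfl, h⟩⟩
    · exact ⟨true, Or.inl ⟨rfl, h⟩⟩
  have hinv : ((diagonal χ : Matrix (Fin e) (Fin e) k)ᵀ)⁻¹ = diagonal fun i => (χ i)⁻¹ := by
    apply Matrix.inv_eq_right_inv
    rw [diagonal_transpose, diagonal_mul_diagonal]
    ext i j
    rw [Matrix.diagonal_apply, Matrix.one_apply]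
    split_ifs with hij
    · exact mul_inv_cancel₀ (hχ0 i)
    · rfl
  have hdet : (diagonal χ : Matrix (Fin e) (Fin e) k).det ≠ 0 := by
    rw [det_diagonal]
    exact Finset.prod_ne_zero_iff.mpr fun i _ => hχ0 i
  -- the chart of the last block
  have hw : HC (isoHom Jw) (diagonal χw) := by
    by_cases hh : ∃ h : IsoG Jw, diagonal χw * isoHom Jw h = -(isoHom Jw h * diagonal χw)
    · obtain ⟨b, r, Jr, u, v, h1, h2, hJr, hr, hu, hv⟩ := hNF2 w ε Jw χw I hJw hI hχw h4 hh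
      apply hTRN (Fin w) _ Jw (diagonal χw) u v h1 h2
      rw [hu, hv]
      exact hW4 b r ε d Jr I hd hJr hI hr
    · rcases hB with hB | hB
      · exact absurd hB hh
      · push Not at hh
        exact hW1N w ε Jw χw hJw hχw hB hh
  have h1 := hLEV e (Fin w) ε d Jw hd hJw (diagonal χ) (diagonal χw) hdet hχw
  rw [hinv] at h1
  apply h1
  · intro x hx
    exact blk hS hP hPw _ (hE x hx)
  · exact hPRD _ _ (Fin e) (Fin w) (glHom (Fin e) k) (isoHom Jw) (diagonal χ) (diagonal χw)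
      (hGLC e χ) hw

theorem st_II (hTRN : ST_TRN k) (hLEV : ST_LEV k) (hPRD : ST_PRD k) (hGLC : ST_GLC k)
    (hNF1 : ST_NF1 k) (hNF2 : ST_NF2 k) (hW4 : ST_W4 k) (hW1N : ST_W1N k) : ST_II k := by
  intro n _ _ ε J s hJ hs N hN hsN
  classical
  obtain ⟨I, hI⟩ : ∃ I : k, I * I = -1 := by
    obtain ⟨I, hI⟩ := IsAlgClosed.exists_eq_mul_self (-1 : k)
    exact ⟨I, hI.symm⟩
  let R : k → k → Prop := WellOrderingRel
  have R_asymm : ∀ a b, R a b → ¬ R b a := fun a b h h' => asymm h h'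
  have R_tri : ∀ a b, ¬ R a b → ¬ R b a → a = b := by
    intro a b h h'
    rcases trichotomous_of (WellOrderingRel (α := k)) a b with h1 | h1 | h1
    · exact absurd h1 h
    · exact h1
    · exact absurd h1 h'
  by_cases hA : ∃ x : IsoG J, s * isoHom J x = -(isoHom J x * s)
  · -- some element anticommutes
    obtain ⟨x0, hx0⟩ := hA
    let P : k → Prop := fun l => R (l ^ 2) (l ^ 2)⁻¹
    have hPas : ∀ l, P l → ¬ P l⁻¹ := by
      intro l h1 h2
      have h3 : R (l⁻¹ ^ 2) (l⁻¹ ^ 2)⁻¹ := h2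
      rw [inv_pow, inv_inv] at h3
      exact R_asymm _ _ h1 h3
    obtain ⟨e, w, u, v, χ, χw, Jw, h1, h2, hu, hv, hP, hPw, hJw, hχw⟩ :=
      hNF1 n ε J s hJ hs N hN hsN P hPas
    have hS : Spl (fun a b : k => a = b ∨ a = -b) P := by
      refine ⟨?_, ?_, ?_, hPas⟩
      · rintro a b (h | h)
        · exact Or.inl h.symm
        · exact Or.inr (by rw [h, neg_neg])
      · rintro a b (rfl | rfl) h
        · exact h
        · have h' : R ((-b) ^ 2) ((-b) ^ 2)⁻¹ := h
          rwa [neg_sq] at h'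
      · rintro a b (rfl | rfl)
        · exact Or.inl rfl
        · exact Or.inr inv_neg
    have hE : ∀ x ∈ cmm (isoHom (LJ (Fin e) ε Jw))
        (dg (diagonal χ) (diagonal fun i => (χ i)⁻¹) (diagonal χw)),
        ∀ i j, isoHom _ x i j ≠ 0 → (Lam χ χw i = Lam χ χw j ∨ Lam χ χw i = -Lam χ χw j) := by
      intro x hx i j hij
      rw [dg_diagonal] at hx
      rcases hx with hx | hx
      · left
        have h3 := diag_scal (Lam χ χw) (isoHom _ x) (c := 1) (by rw [one_smul]; exact hx) i j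
        apply mul_right_cancel₀ hij
        rw [h3]; ring
      · right
        have h3 := diag_scal (Lam χ χw) (isoHom _ x) (c := -1)
          (by rw [neg_one_smul]; exact hx) i j
        apply mul_right_cancel₀ hij
        rw [h3]; ring
    apply hTRN n _ J s u v h1 h2
    rw [hu, hv]
    refine ii_core hTRN hLEV hPRD hGLC hNF2 hW4 hW1N hJw (fun i => (hP i).2) hχw hS
      (fun i => (hP i).1) (fun j => ⟨(hPw j).1, (hPw j).2.1⟩) hE hI ?_ (Or.inl ?_)
    · intro j
      obtain ⟨p1, p2, p3⟩ := hPw j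
      have p2' : ¬ R ((χw j)⁻¹ ^ 2) ((χw j)⁻¹ ^ 2)⁻¹ := p2
      rw [inv_pow, inv_inv] at p2'
      have p4 : (χw j) ^ 2 = ((χw j) ^ 2)⁻¹ := R_tri _ _ p1 p2'
      have p5 : (χw j) ^ 2 * (χw j) ^ 2 = 1 := by
        nth_rw 2 [p4]
        exact mul_inv_cancel₀ (pow_ne_zero 2 p3)
      have p6 : (χw j - 1) * ((χw j + 1) * ((χw j - I) * (χw j + I))) = 0 := by
        linear_combination p5 - ((χw j) ^ 2 - 1) * hI
      rcases mul_eq_zero.mp p6 with h | h
      · exact Or.inl (sub_eq_zero.mp h)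
      rcases mul_eq_zero.mp h with h | h
      · exact Or.inr (Or.inl (eq_neg_of_add_eq_zero_left h))
      rcases mul_eq_zero.mp h with h | h
      · exact Or.inr (Or.inr (Or.inl (sub_eq_zero.mp h)))
      · exact Or.inr (Or.inr (Or.inr (eq_neg_of_add_eq_zero_left h)))
    · obtain ⟨y, hy⟩ := iso_push h1 h2 x0
      have hy1 : (v * s * u) * isoHom _ y = -(isoHom _ y * (v * s * u)) := by
        rw [hy]
        calc v * s * u * (v * isoHom J x0 * u) = v * s * (u * v) * isoHom J x0 * u := by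
              simp only [Matrix.mul_assoc]
          _ = v * (s * isoHom J x0) * u := by
              rw [h1, Matrix.mul_one]; simp only [Matrix.mul_assoc]
          _ = -(v * isoHom J x0 * s * u) := by
              rw [hx0, Matrix.mul_neg, Matrix.neg_mul]; simp only [Matrix.mul_assoc]
          _ = -(v * isoHom J x0 * (u * v) * s * u) := by rw [h1, Matrix.mul_one]
          _ = -(v * isoHom J x0 * u * (v * s * u)) := by simp only [Matrix.mul_assoc]
      rw [hv] at hy1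
      revert y
      rw [hu]
      intro y _ hy1
      have hb := blk hS (fun i => (hP i).1) (fun j => ⟨(hPw j).1, (hPw j).2.1⟩) _
        (hE y (Or.inr hy1))
      obtain ⟨z, hz⟩ := third y hb
      refine ⟨z, ?_⟩
      rw [hz]
      ext i j
      rw [dg_diagonal] at hy1
      have h3 := diag_scal (Lam χ χw) (isoHom _ y) (c := -1)
          (by rw [neg_one_smul]; exact hy1) (Sum.inr (Sum.inr i)) (Sum.inr (Sum.inr j))
      rw [Matrix.diagonal_mul, Matrix.neg_apply, Matrix.mul_diagonal]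
      show χw i * isoHom _ y (Sum.inr (Sum.inr i)) (Sum.inr (Sum.inr j)) =
        -(isoHom _ y (Sum.inr (Sum.inr i)) (Sum.inr (Sum.inr j)) * χw j)
      rw [← neg_one_mul]
      exact h3
  · -- nothing anticommutes
    push Not at hA
    let P : k → Prop := fun l => R l l⁻¹
    have hPas : ∀ l, P l → ¬ P l⁻¹ := by
      intro l h1 h2
      have h3 : R l⁻¹ l⁻¹⁻¹ := h2
      rw [inv_inv] at h3
      exact R_asymm _ _ h1 h3
    obtain ⟨e, w, u, v, χ, χw, Jw, h1, h2, hu, hv, hP, hPw, hJw, hχw⟩ :=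
      hNF1 n ε J s hJ hs N hN hsN P hPas
    have hS : Spl (fun a b : k => a = b) P := by
      refine ⟨?_, ?_, ?_, hPas⟩
      · rintro a b h
        exact h.symm
      · rintro a b rfl h
        exact h
      · rintro a b rfl
        rfl
    have hE : ∀ x ∈ cmm (isoHom (LJ (Fin e) ε Jw))
        (dg (diagonal χ) (diagonal fun i => (χ i)⁻¹) (diagonal χw)),
        ∀ i j, isoHom _ x i j ≠ 0 → Lam χ χw i = Lam χ χw j := by
      intro x hx i j hij
      rcases hx with hx | hx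
      · rw [dg_diagonal] at hx
        have h3 := diag_scal (Lam χ χw) (isoHom _ x) (c := 1) (by rw [one_smul]; exact hx) i j
        apply mul_right_cancel₀ hij
        rw [h3]; ring
      · exfalso
        rw [← hv] at hx
        revert x
        rw [← hu]
        intro x _ hx
        obtain ⟨y, hy⟩ := iso_pull h1 h2 x
        apply hA y
        rw [hy]
        generalize isoHom (uᵀ * J * u) x = X at hx
        calc s * (u * X * v) = (u * v) * s * u * X * v := by
              rw [h1, Matrix.one_mul]; simp only [Matrix.mul_assoc]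
          _ = u * (v * s * u * X) * v := by simp only [Matrix.mul_assoc]
          _ = -(u * X * v * s * (u * v)) := by
              rw [hx, Matrix.mul_neg, Matrix.neg_mul]; simp only [Matrix.mul_assoc]
          _ = -(u * X * v * s) := by rw [h1, Matrix.mul_one]
    apply hTRN n _ J s u v h1 h2
    rw [hu, hv]
    have hpm : ∀ j, χw j = 1 ∨ χw j = -1 := by
      intro j
      obtain ⟨p1, p2, p3⟩ := hPw j
      have p2' : ¬ R (χw j)⁻¹ (χw j)⁻¹⁻¹ := p2
      rw [inv_inv] at p2'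
      have p4 : χw j = (χw j)⁻¹ := R_tri _ _ p1 p2'
      have p5 : χw j * χw j = 1 := by
        nth_rw 2 [p4]
        exact mul_inv_cancel₀ p3
      exact mul_self_eq_one_iff.mp p5
    refine ii_core hTRN hLEV hPRD hGLC hNF2 hW4 hW1N hJw (fun i => (hP i).2) hχw hS
      (fun i => (hP i).1) (fun j => ⟨(hPw j).1, (hPw j).2.1⟩) hE hI ?_ (Or.inr hpm)
    intro j
    rcases hpm j with h | h
    · exact Or.inl h
    · exact Or.inr (Or.inl h)

end Pool.Agent.Helper97.CG
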