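import Pool.Agent.Helper97.CG.Stmts

/-!
# Row IRR of MP_005e41: irreducibility of the isometry groups

Symplectic transvections and products of two reflections lie on rational curves through `1`.
-/

namespace Pool.Agent.Helper97.CG

set_option linter.unusedSectionVars false

open Matrix Pool.Agent.Helper14.RG

universe u

section Pol

variable {k : Type u} [Field k]

/-- polynomial functions of one variable -/
def Pol (k : Type u) [Field k] : Subalgebra k (k → k) where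
  carrier := {f | ∃ p : Polynomial k, ∀ t, f t = p.eval t}
  mul_mem' := by
    rintro f g ⟨p, hp⟩ ⟨q, hq⟩
    exact ⟨p * q, fun t => by rw [Pi.mul_apply, hp, hq, Polynomial.eval_mul]⟩
  add_mem' := by
    rintro f g ⟨p, hp⟩ ⟨q, hq⟩
    exact ⟨p + q, fun t => by rw [Pi.add_apply, hp, hq, Polynomial.eval_add]⟩
  algebraMap_mem' := by
    intro r
    exact ⟨Polynomial.C r, fun t => by rw [Polynomial.eval_C]; rfl⟩

lemma pol_id : (fun t : k => t) ∈ Pol k := ⟨Polynomial.X, fun t => by rw [Polynomial.eval_X]⟩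

lemma pol_const (c : k) : (fun _ : k => c) ∈ Pol k := Subalgebra.algebraMap_mem (Pol k) c

lemma pol_aff (a b : k) : (fun t : k => a + t * b) ∈ Pol k :=
  add_mem (pol_const a) (mul_mem pol_id (pol_const b))

lemma regU_sum {X : Type*} {A : Subalgebra k (X → k)} {ι : Type*} (s : Finset ι)
    (f : ι → X → k) (h : ∀ i ∈ s, f i ∈ A) : (fun x => ∑ i ∈ s, f i x) ∈ A := by
  have : (fun x => ∑ i ∈ s, f i x) = ∑ i ∈ s, f i := by
    funext x
    rw [Finset.sum_apply]
  rw [this]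
  exact sum_mem h

lemma pol_join [Infinite k] {f f' D : k → k} (hD : D ∈ Pol k) (hf : f ∈ RegU (Pol k) D)
    (hf' : f' ∈ RegU (Pol k) D) (hD0 : D 0 ≠ 0) (hD1 : D 1 ≠ 0) (h0 : f 0 ≠ 0) (h1 : f' 1 ≠ 0) :
    ∃ t, D t ≠ 0 ∧ f t ≠ 0 ∧ f' t ≠ 0 := by
  obtain ⟨d, hd⟩ := hD
  obtain ⟨a, ⟨pa, hpa⟩, b, ⟨pb, hpb⟩, hab⟩ := hf
  obtain ⟨a', ⟨pa', hpa'⟩, b', ⟨pb', hpb'⟩, hab'⟩ := hf'
  have e1 : d ≠ 0 := by
    rintro rfl
    exact hD0 (by rw [hd, Polynomial.eval_zero])
  have e2 : pa ≠ 0 := by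
    rintro rfl
    have h := (hab 0 hD0)
    rw [hpa, Polynomial.eval_zero] at h
    exact mul_ne_zero h0 h.1 h.2
  have e3 : pa' ≠ 0 := by
    rintro rfl
    have h := (hab' 1 hD1)
    rw [hpa', Polynomial.eval_zero] at h
    exact mul_ne_zero h1 h.1 h.2
  have e4 : d * pa * pa' ≠ 0 := mul_ne_zero (mul_ne_zero e1 e2) e3
  obtain ⟨t, ht⟩ : ∃ t, (d * pa * pa').eval t ≠ 0 := by
    by_contra hcon
    push Not at hcon
    exact e4 (Polynomial.funext fun t => by rw [hcon t, Polynomial.eval_zero])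
  rw [Polynomial.eval_mul, Polynomial.eval_mul] at ht
  have t1 := left_ne_zero_of_mul (left_ne_zero_of_mul ht)
  have t2 := right_ne_zero_of_mul (left_ne_zero_of_mul ht)
  have t3 := right_ne_zero_of_mul ht
  have hDt : D t ≠ 0 := by rw [hd]; exact t1
  refine ⟨t, hDt, ?_, ?_⟩
  · rw [← hpa, ← (hab t hDt).2] at t2
    exact left_ne_zero_of_mul t2
  · rw [← hpa', ← (hab' t hDt).2] at t3
    exact left_ne_zero_of_mul t3

end Pol

section Join

variable {k : Type u} [Field k] {G : Type*} [Group G]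

/-- elements which can be joined to `1` -/
def Jn (A : Subalgebra k (G → k)) (h : G) : Prop :=
  ∀ a ∈ A, ∀ b ∈ A, ∀ g, a g ≠ 0 → b (g * h) ≠ 0 → ∃ g', a g' ≠ 0 ∧ b g' ≠ 0

lemma Jn.one (A : Subalgebra k (G → k)) : Jn A 1 := by
  intro a _ b _ g h1 h2
  rw [mul_one] at h2
  exact ⟨g, h1, h2⟩

lemma Jn.mul {A : Subalgebra k (G → k)} (hA : RStable A) {h h' : G} (h1 : Jn A h)
    (h2 : Jn A h') : Jn A (h * h') := by
  intro a ha b hb g hg hb'
  obtain ⟨g', e1, e2⟩ := h1 a ha (fun x => b (x * h')) (hA h' b hb) g hg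
    (by rwa [mul_assoc])
  exact h2 a ha b hb g' e1 e2

variable {n : Type} [Fintype n] [DecidableEq n]

lemma Jn.of_curve [Infinite k] (ρ : G →* Matrix n n k) (γ : k → G) {D : k → k} (hD : D ∈ Pol k)
    (h0 : D 0 ≠ 0) (h1 : D 1 ≠ 0) (hγ0 : γ 0 = 1)
    (hγ : ∀ i j, (fun t => ρ (γ t) i j) ∈ RegU (Pol k) D) : Jn (mAlg ρ) (γ 1) := by
  intro a ha b hb g hg hb'
  have key : ∀ c ∈ mAlg ρ, (fun t => c (g * γ t)) ∈ RegU (Pol k) D := by
    intro c hc
    refine comp_mem_RegU (X := k) (X' := G) rfl (fun t => g * γ t) ?_ hc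
    rintro _ ⟨i, j, rfl⟩
    have : (fun t => ρ (g * γ t) i j) = fun t => ∑ l ∈ Finset.univ, ρ g i l * ρ (γ t) l j := by
      funext t
      rw [map_mul, Matrix.mul_apply]
    show (fun t => ρ (g * γ t) i j) ∈ _
    rw [this]
    exact regU_sum _ (fun l t => ρ g i l * ρ (γ t) l j) fun l _ =>
      mul_mem (le_RegU _ _ (pol_const (ρ g i l))) (hγ l j)
  obtain ⟨t, -, e1, e2⟩ := pol_join hD (key a ha) (key b hb) h0 h1
    (by rw [hγ0, mul_one]; exact hg) hb'
  exact ⟨g * γ t, e1, e2⟩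

lemma mAlg_rstable (ρ : G →* Matrix n n k) : RStable (mAlg ρ) := by
  intro h a ha
  unfold mAlg at ha ⊢
  induction ha using Algebra.adjoin_induction with
  | mem x hx =>
    obtain ⟨i, j, rfl⟩ := hx
    have : (fun g => ρ (g * h) i j) = fun g => ∑ l ∈ Finset.univ, ρ g i l * ρ h l j := by
      funext g
      rw [map_mul, Matrix.mul_apply]
    show (fun g => ρ (g * h) i j) ∈ _
    rw [this]
    exact regU_sum _ (fun l g => ρ g i l * ρ h l j) fun l _ =>
      mul_mem (Algebra.subset_adjoin ⟨i, l, rfl⟩) (Subalgebra.algebraMap_mem _ (ρ h l j))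
  | algebraMap r => exact Subalgebra.algebraMap_mem _ r
  | add x y _ _ hx hy => exact add_mem hx hy
  | mul x y _ _ hx hy => exact mul_mem hx hy

end Join

section Elementary

variable {k : Type u} [Field k] {n : Type} [Fintype n] [DecidableEq n]

/-- `1 + c v (J v)ᵀ` -/
def tv (J : Matrix n n k) (v : n → k) (c : k) : Matrix n n k := 1 + c • vecMulVec v (J *ᵥ v)

lemma tv_det (J : Matrix n n k) (v : n → k) (c : k) :
    (tv J v c).det = 1 + c * (v ⬝ᵥ (J *ᵥ v)) := by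
  rw [tv, ← smul_vecMulVec, vecMulVec_eq Unit, det_one_add_replicateCol_mul_replicateRow,
    dotProduct_smul, smul_eq_mul, dotProduct_comm]

lemma tv_iso {ε : k} {J : Matrix n n k} (hJ : Jᵀ = ε • J) (v : n → k) (c : k)
    (h : c * (ε + 1 + c * ε * (v ⬝ᵥ (J *ᵥ v))) = 0) : (tv J v c)ᵀ * J * tv J v c = J := by
  have e1 : v ᵥ* J = ε • (J *ᵥ v) := by
    rw [← mulVec_transpose, hJ, smul_mulVec]
  have e2 : (tv J v c)ᵀ = 1 + c • vecMulVec (J *ᵥ v) v := by
    rw [tv, transpose_add, transpose_one, transpose_smul, transpose_vecMulVec]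
  have e3 : (1 + c • vecMulVec (J *ᵥ v) v) * J = J + (c * ε) • vecMulVec (J *ᵥ v) (J *ᵥ v) := by
    rw [Matrix.add_mul, Matrix.one_mul, Matrix.smul_mul, vecMulVec_mul, e1, vecMulVec_smul,
      smul_smul]
  rw [e2, e3, tv, Matrix.mul_add, Matrix.mul_one, Matrix.mul_smul, Matrix.add_mul, mul_vecMulVec,
    Matrix.smul_mul, vecMulVec_mul_vecMulVec, vecMulVec_smul]
  ext i j
  simp only [Matrix.add_apply, Matrix.smul_apply, vecMulVec_apply, smul_eq_mul]
  rw [dotProduct_comm (J *ᵥ v) v]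
  linear_combination (J *ᵥ v) i * (J *ᵥ v) j * h

lemma alt_q {J : Matrix n n k} [CharZero k] (hJ : Jᵀ = (-1 : k) • J) (v : n → k) :
    v ⬝ᵥ (J *ᵥ v) = 0 := by
  have e1 : v ⬝ᵥ (J *ᵥ v) = -(v ⬝ᵥ (J *ᵥ v)) := by
    conv_lhs => rw [dotProduct_mulVec, ← mulVec_transpose, hJ, neg_one_smul, neg_mulVec,
      neg_dotProduct, dotProduct_comm]
  have e2 : (2 : k) * (v ⬝ᵥ (J *ᵥ v)) = 0 := by linear_combination e1
  rcases mul_eq_zero.mp e2 with h | h
  · exact absurd h two_ne_zero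
  · exact h

/-- a matrix of determinant one which preserves `J`, as an element of the group -/
def mkIso {J : Matrix n n k} (M : Matrix n n k) (h1 : Mᵀ * J * M = J) (h2 : M.det = 1) :
    IsoG J := ⟨⟨M, h2⟩, h1⟩

lemma isoHom_mkIso {J : Matrix n n k} (M : Matrix n n k) (h1 : Mᵀ * J * M = J)
    (h2 : M.det = 1) : isoHom J (mkIso M h1 h2) = M := rfl

lemma isoHom_inj {J : Matrix n n k} {x y : IsoG J} (h : isoHom J x = isoHom J y) : x = y :=
  Subtype.ext (Subtype.ext h)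

lemma iso_mul {J M M' : Matrix n n k} (h : Mᵀ * J * M = J) (h' : M'ᵀ * J * M' = J) :
    (M * M')ᵀ * J * (M * M') = J := by
  rw [transpose_mul]
  calc M'ᵀ * Mᵀ * J * (M * M') = M'ᵀ * (Mᵀ * J * M) * M' := by simp only [Matrix.mul_assoc]
    _ = J := by rw [h, h']

/-- the transvections are joined to `1` -/
lemma jn_transvection [CharZero k] {J : Matrix n n k} (hJ : Jᵀ = (-1 : k) • J) (v : n → k)
    (c : k) : ∃ x : IsoG J, isoHom J x = tv J v c ∧ Jn (mAlg (isoHom J)) x := by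
  have hq := alt_q hJ v
  have h1 : ∀ c : k, (tv J v c)ᵀ * J * tv J v c = J := fun c =>
    tv_iso hJ v c (by rw [hq]; ring)
  have h2 : ∀ c : k, (tv J v c).det = 1 := fun c => by rw [tv_det, hq, mul_zero, add_zero]
  let γ : k → IsoG J := fun t => mkIso (tv J v (t * c)) (h1 _) (h2 _)
  refine ⟨γ 1, ?_, ?_⟩
  · show tv J v (1 * c) = tv J v c
    rw [one_mul]
  · refine Jn.of_curve (isoHom J) γ (pol_const 1) one_ne_zero one_ne_zero ?_ ?_
    · apply isoHom_inj
      show tv J v (0 * c) = 1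
      rw [zero_mul, tv, zero_smul, add_zero]
    · intro i j
      refine le_RegU _ _ ?_
      show (fun t : k => tv J v (t * c) i j) ∈ _
      have : (fun t : k => tv J v (t * c) i j) =
          fun t => (1 : Matrix n n k) i j + t * (c * (v i * (J *ᵥ v) j)) := by
        funext t
        rw [tv, Matrix.add_apply, Matrix.smul_apply, vecMulVec_apply, smul_eq_mul, mul_assoc]
      rw [this]
      exact pol_aff _ _

/-- the reflection in `v` -/
def rf (J : Matrix n n k) (v : n → k) : Matrix n n k :=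
  1 - (2 / (v ⬝ᵥ (J *ᵥ v))) • vecMulVec v (J *ᵥ v)

lemma rf_eq (J : Matrix n n k) (v : n → k) : rf J v = tv J v (-(2 / (v ⬝ᵥ (J *ᵥ v)))) := by
  rw [rf, tv, neg_smul, sub_eq_add_neg]

lemma rf_iso {J : Matrix n n k} (hJ : Jᵀ = J) {v : n → k} (hv : v ⬝ᵥ (J *ᵥ v) ≠ 0) :
    (rf J v)ᵀ * J * rf J v = J := by
  rw [rf_eq]
  refine tv_iso (ε := 1) (by rw [hJ, one_smul]) v _ ?_
  field_simp
  ring

lemma rf_det {J : Matrix n n k} {v : n → k} (hv : v ⬝ᵥ (J *ᵥ v) ≠ 0) : (rf J v).det = -1 := by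
  rw [rf_eq, tv_det]
  field_simp
  ring

lemma rf_sq {J : Matrix n n k} {v : n → k} (hv : v ⬝ᵥ (J *ᵥ v) ≠ 0) : rf J v * rf J v = 1 := by
  rw [rf, Matrix.sub_mul, Matrix.one_mul, Matrix.mul_sub, Matrix.mul_one, Matrix.smul_mul,
    Matrix.mul_smul, vecMulVec_mul_vecMulVec, vecMulVec_smul]
  ext i j
  simp only [Matrix.sub_apply, Matrix.smul_apply, vecMulVec_apply, smul_eq_mul]
  rw [dotProduct_comm (J *ᵥ v) v]
  field_simp
  ring

/-- products of two reflections are joined to `1` -/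
lemma jn_refl [CharZero k] {J : Matrix n n k} (hJ : Jᵀ = J) {v w : n → k}
    (hv : v ⬝ᵥ (J *ᵥ v) ≠ 0) (hw : w ⬝ᵥ (J *ᵥ w) ≠ 0) :
    ∃ x : IsoG J, isoHom J x = rf J w * rf J v ∧ Jn (mAlg (isoHom J)) x := by
  classical
  let vt : k → n → k := fun t i => v i + t * (w i - v i)
  let D : k → k := fun t => vt t ⬝ᵥ (J *ᵥ vt t)
  have vt0 : vt 0 = v := by funext i; show v i + 0 * (w i - v i) = v i; ring
  have vt1 : vt 1 = w := by funext i; show v i + 1 * (w i - v i) = w i; ring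
  have hvt : ∀ i, (fun t => vt t i) ∈ Pol k := fun i => pol_aff _ _
  have hJvt : ∀ i, (fun t => (J *ᵥ vt t) i) ∈ Pol k := fun i =>
    regU_sum (A := Pol k) _ (fun l t => J i l * vt t l) fun l _ => mul_mem (pol_const _) (hvt l)
  have hD : D ∈ Pol k :=
    regU_sum (A := Pol k) _ (fun l t => vt t l * (J *ᵥ vt t) l) fun l _ => mul_mem (hvt l) (hJvt l)
  have h1 : ∀ t, D t ≠ 0 → (rf J (vt t) * rf J v)ᵀ * J * (rf J (vt t) * rf J v) = J := fun t ht =>
    iso_mul (rf_iso hJ ht) (rf_iso hJ hv)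
  have h2 : ∀ t, D t ≠ 0 → (rf J (vt t) * rf J v).det = 1 := fun t ht => by
    rw [det_mul, rf_det ht, rf_det hv]; ring
  let γ : k → IsoG J := fun t => if h : D t ≠ 0 then mkIso _ (h1 t h) (h2 t h) else 1
  have hγ : ∀ t, D t ≠ 0 → isoHom J (γ t) = rf J (vt t) * rf J v := by
    intro t ht
    show isoHom J (dite _ _ _) = _
    rw [dif_pos ht]
    rfl
  have hD0 : D 0 ≠ 0 := by show vt 0 ⬝ᵥ (J *ᵥ vt 0) ≠ 0; rw [vt0]; exact hv
  have hD1 : D 1 ≠ 0 := by show vt 1 ⬝ᵥ (J *ᵥ vt 1) ≠ 0; rw [vt1]; exact hw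
  refine ⟨γ 1, ?_, ?_⟩
  · rw [hγ 1 hD1, vt1]
  · refine Jn.of_curve (isoHom J) γ hD hD0 hD1 ?_ ?_
    · apply isoHom_inj
      rw [hγ 0 hD0, vt0, rf_sq hv, map_one]
    · intro i j
      have e1 : ∀ i l, (fun t => rf J (vt t) i l) ∈ RegU (Pol k) D := by
        intro i l
        have : (fun t => rf J (vt t) i l) = (fun _ => (1 : Matrix n n k) i l) -
            (fun _ => (2 : k)) * (fun t => (D t)⁻¹) * (fun t => vt t i * (J *ᵥ vt t) l) := by
          funext t
          simp only [Pi.sub_apply, Pi.mul_apply]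
          rw [rf, Matrix.sub_apply, Matrix.smul_apply, vecMulVec_apply, smul_eq_mul,
            div_eq_mul_inv]
        rw [this]
        exact sub_mem (le_RegU _ _ (pol_const _)) (mul_mem (mul_mem (le_RegU _ _ (pol_const _))
          (inv_mem_RegU hD fun _ h => h)) (le_RegU _ _ (mul_mem (hvt i) (hJvt l))))
      have e2 : (fun t => ∑ l ∈ Finset.univ, rf J (vt t) i l * rf J v l j) ∈ RegU (Pol k) D :=
        regU_sum _ (fun l t => rf J (vt t) i l * rf J v l j) fun l _ =>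
          mul_mem (e1 i l) (le_RegU _ _ (pol_const _))
      obtain ⟨a, ha, b, hb, hab⟩ := e2
      refine ⟨a, ha, b, hb, fun t ht => ?_⟩
      have e3 : isoHom J (γ t) i j = ∑ l, rf J (vt t) i l * rf J v l j := by
        rw [hγ t ht, Matrix.mul_apply]
      show b t ≠ 0 ∧ isoHom J (γ t) i j * b t = a t
      rw [e3]
      exact hab t ht

end Elementary

variable {k : Type u} [Field k] [IsAlgClosed k] [CharZero k]

theorem st_IRR (hGS : ST_GENS k) (hGA : ST_GENA k) : ST_IRR k := by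
  intro n _ _ ε J hJ
  have main : ∀ x : IsoG J, Jn (mAlg (isoHom J)) x := by
    intro x
    have hx : (isoHom J x)ᵀ * J * isoHom J x = J := x.2
    rcases hJ.eps with rfl | rfl
    · have hsym : Jᵀ = J := by rw [hJ.symm, one_smul]
      have hJ' : IsForm 1 J := hJ
      -- the products
      have key : ∀ M ∈ Submonoid.closure {R : Matrix n n k | ∃ v : n → k, v ⬝ᵥ (J *ᵥ v) ≠ 0 ∧
          R = 1 - (2 / (v ⬝ᵥ (J *ᵥ v))) • vecMulVec v (J *ᵥ v)},
          (∃ y : IsoG J, isoHom J y = M ∧ Jn (mAlg (isoHom J)) y) ∨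
          (∃ v, v ⬝ᵥ (J *ᵥ v) ≠ 0 ∧ ∃ y : IsoG J, rf J v * isoHom J y = M ∧
            Jn (mAlg (isoHom J)) y) := by
        intro M hM
        induction hM using Submonoid.closure_induction_left with
        | one => exact Or.inl ⟨1, map_one _, Jn.one _⟩
        | mul_left R hR M' _ ih =>
          obtain ⟨w, hw, hR⟩ := hR
          have hR : R = rf J w := hR
          rcases ih with ⟨y, hy, hy'⟩ | ⟨v, hv, y, hy, hy'⟩
          · exact Or.inr ⟨w, hw, y, by rw [hy, hR], hy'⟩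
          · obtain ⟨z, hz, hz'⟩ := jn_refl hsym hv hw
            refine Or.inl ⟨z * y, ?_, Jn.mul (mAlg_rstable _) hz' hy'⟩
            rw [map_mul, hz, hR, ← hy, Matrix.mul_assoc]
      rcases key _ (hGS n J hJ' _ hx) with ⟨y, hy, hy'⟩ | ⟨v, hv, y, hy, hy'⟩
      · rwa [isoHom_inj hy] at hy'
      · exfalso
        have h1 : (isoHom J x).det = 1 := x.1.2
        have h2 : (isoHom J y).det = 1 := y.1.2
        rw [← hy, det_mul, rf_det hv, h2] at h1
        have h3 : (2 : k) = 0 := by linear_combination -h1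
        exact two_ne_zero h3
    · have key : ∀ M ∈ Submonoid.closure {R : Matrix n n k | ∃ (v : n → k) (c : k),
          R = 1 + c • vecMulVec v (J *ᵥ v)},
          (∃ y : IsoG J, isoHom J y = M ∧ Jn (mAlg (isoHom J)) y) := by
        intro M hM
        induction hM using Submonoid.closure_induction_left with
        | one => exact ⟨1, map_one _, Jn.one _⟩
        | mul_left R hR M' _ ih =>
          obtain ⟨w, c, hR⟩ := hR
          obtain ⟨y, hy, hy'⟩ := ih
          obtain ⟨z, hz, hz'⟩ := jn_transvection hJ.symm w c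
          refine ⟨z * y, ?_, Jn.mul (mAlg_rstable _) hz' hy'⟩
          rw [map_mul, hz, hR, ← hy]
          rfl
      obtain ⟨y, hy, hy'⟩ := key _ (hGA n J hJ _ hx)
      rwa [isoHom_inj hy] at hy'
  refine ⟨⟨1⟩, ?_⟩
  intro a ha b hb ha0 hb0
  obtain ⟨g, hg⟩ : ∃ g, a g ≠ 0 := by
    by_contra hcon
    push Not at hcon
    exact ha0 (funext hcon)
  obtain ⟨g', hg'⟩ : ∃ g, b g ≠ 0 := by
    by_contra hcon
    push Not at hcon
    exact hb0 (funext hcon)
  exact main (g⁻¹ * g') a ha b hb g hg (by rwa [mul_inv_cancel_left])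

end Pool.Agent.Helper97.CG
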